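import Pool.Agent.H.MP_8f64b1_lc.Defs
import Pool.Agent.Lib.helper25.CX2b
import Pool.Agent.Lib.lead.CXGraphRed

namespace Pool.Agent.H.MP_8f64b1_lc

open Pool.Agent.Lib.CX Pool.Agent.Lib.CX2

theorem dag {V : Type} (r : V → V → Prop) (S : Set V) (f : V → ℕ) (B : ℕ) (hB : ∀ u ∈ S, f u ≤ B)
    (h : ∀ u ∈ S, ∀ v ∈ S, r u v → f u < f v ∨ (r v u ∧ f v < f u)) : ∃ K, IsKernel r S K := by
  have wf : WellFounded fun v u => v ∈ S ∧ r u v ∧ f u < f v :=
    Subrelation.wf (r := InvImage (· < ·) fun u => B + 1 - f u)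
      (fun {v u} ⟨a, _, c⟩ => by have := hB v a; simp only [InvImage]; omega) (InvImage.wf _ wellFounded_lt)
  let K : V → Prop := wf.fix fun u ih => u ∈ S ∧ ∀ v h, ¬ih v h
  have e : ∀ u, K u ↔ u ∈ S ∧ ∀ v, v ∈ S ∧ r u v ∧ f u < f v → ¬K v := fun u => by
    simp only [K]; rw [wf.fix_eq]
  refine ⟨{u | K u}, fun u hu => ((e u).1 hu).1, fun u hu v hv a => ?_, fun v hv hk => ?_⟩
  · have h1 := (e u).1 hu
    have h2 := (e v).1 hv
    rcases h u h1.1 v h2.1 a with b | b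
    · exact h1.2 v ⟨h2.1, a, b⟩ hv
    · exact h2.2 u ⟨h1.1, b⟩ hu
  · by_contra! H
    exact hk ((e v).2 ⟨hv, fun w hw hk => H w hk hw.2.1⟩)

theorem transfer {A B : Type} (r : A → A → Prop) (r' : B → B → Prop) (g : A → B) (hg : Function.Injective g)
    (h : ∀ u v, r u v ↔ r' (g u) (g v)) :
    (∀ S, ∃ K, IsKernel r S K) ↔ ∀ S ⊆ Set.range g, ∃ K, IsKernel r' S K := by
  constructor
  · intro H S hS
    obtain ⟨K, h1, h2, h3⟩ := H (g ⁻¹' S)
    refine ⟨g '' K, ?_, ?_, fun v hv hk => ?_⟩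
    · rintro _ ⟨u, hu, rfl⟩; exact h1 hu
    · rintro _ ⟨u, hu, rfl⟩ _ ⟨v, hv, rfl⟩; exact fun a => h2 u hu v hv ((h _ _).2 a)
    · obtain ⟨v, rfl⟩ := hS hv
      obtain ⟨w, a, b⟩ := h3 v hv fun c => hk ⟨v, c, rfl⟩
      exact ⟨_, ⟨w, a, rfl⟩, (h _ _).1 b⟩
  · intro H S
    obtain ⟨K, h1, h2, h3⟩ := H (g '' S) (Set.image_subset_range _ _)
    refine ⟨g ⁻¹' K, fun u hu => ?_, fun u hu v hv a => h2 _ hu _ hv ((h _ _).1 a), fun v hv hk => ?_⟩
    · obtain ⟨v, a, b⟩ := h1 hu; exact hg b ▸ a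
    · obtain ⟨w, a, b⟩ := h3 _ ⟨v, hv, rfl⟩ hk
      obtain ⟨w, -, rfl⟩ := h1 a
      exact ⟨w, a, (h _ _).2 b⟩

abbrev W := ℕ × ℕ

def D (N : ℕ) (q : W → W → Prop) (u v : W) : Prop :=
  (u.1 ≤ 1 ∧ v.1 ≤ 1 ∧ q u v) ∨ (u.1 = 2 ∧ v.1 = 2 ∧ u.2 ≠ v.2 ∧ u.2 ≠ v.2 + 1) ∨
  (u.1 = 2 ∧ v.1 = 3 ∧ u.2 ≠ 0) ∨ (u.1 = 3 ∧ v.1 = 2) ∨
  (u.1 = 0 ∧ v.1 = 2 ∧ u.2 ≠ v.2 ∧ u.2 ≠ v.2 + 1 ∧ ¬(v.2 = N ∧ u.2 = 0)) ∨
  (u.1 = 2 ∧ v.1 = 0 ∧ v.2 ≠ u.2 ∧ v.2 ≠ u.2 + 1) ∨ (u.1 = 1 ∧ v.1 = 2) ∨ (u.1 = 2 ∧ v.1 = 1) ∨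
  (u.1 ≤ 1 ∧ v.1 = 3) ∨ (u.1 = 3 ∧ v.1 = 0 ∧ v.2 = 0)

def T (N k : ℕ) : Set W := {u | (u.1 = 0 ∧ u.2 ≤ N) ∨ (u.1 = 1 ∧ u.2 < k) ∨ (u.1 = 2 ∧ u.2 ≤ N) ∨ (u.1 = 3 ∧ u.2 = 0)}

theorem exists_step {p : ℕ → Prop} {N : ℕ} (h0 : p 0) (h : ¬∀ j ≤ N, p j) : ∃ i < N, p i ∧ ¬p (i + 1) := by
  by_contra! H
  refine h fun j hj => ?_
  induction j with
  | zero => exact h0
  | succ j ih => exact H j (by omega) (ih (by omega))

theorem guard (N k : ℕ) (q : W → W → Prop) (hN : 2 ≤ N)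
    (h1 : ∀ S ⊆ T N k, (∀ u ∈ S, u.1 ≤ 1) → ∃ K, IsKernel q S K)
    (h2 : ∀ j < N, q (0, j) (0, j + 1) ∧ ¬q (0, j + 1) (0, j)) (h4 : ¬q (0, 0) (0, N))
    (h5 : ∀ v ∈ T N k, ¬q (0, N) v) :
    (∀ S ⊆ T N k, ∃ K, IsKernel (D N q) S K) ↔
      ∀ S ⊆ T N k, (∀ u ∈ S, u.1 ≤ 1) → (∀ j ≤ N, (0, j) ∈ S) → ∃ K, IsKernel q S K ∧ (0, 0) ∈ K := by
  have dq : ∀ u v : W, u.1 ≤ 1 → v.1 ≤ 1 → (D N q u v ↔ q u v) := fun u v a b => by
    simp only [D]
    exact ⟨fun h => by rcases h with h | h <;> [exact h.2.2; omega], fun h => .inl ⟨a, b, h⟩⟩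
  constructor
  · intro H S hS hS1 hS2
    obtain ⟨K, a, b, c⟩ := H (S ∪ {u ∈ T N k | 2 ≤ u.1}) (Set.union_subset hS fun _ h => h.1)
    have aT : ∀ u ∈ K, u ∈ T N k := fun u hu => (a hu).elim (fun h => hS h) fun h => h.1
    have mG : ∀ i ≤ N, ((2, i) : W) ∈ S ∪ {u ∈ T N k | 2 ≤ u.1} := fun i hi => .inr ⟨by simp [T, hi], le_rfl⟩
    have nH : (3, 0) ∉ K := fun hH => by
      have n0 : (2, 0) ∉ K := fun h => b _ hH _ h (by simp [D])
      obtain ⟨⟨t, j⟩, w1, w2⟩ := c _ (mG 0 (by omega)) n0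
      have := b _ w1 _ hH
      have := b _ hH _ w1
      simp [D] at *; omega
    have nG : ∀ i, (2, i) ∉ K := fun i hi => by
      have iN : i ≤ N := by simpa [T] using aT _ hi
      have kk : ∀ w ∈ K, w = (2, i) ∨ w = (0, i) ∨ w = (0, i + 1) := fun ⟨t, j⟩ hw => by
        have e1 := b _ hw _ hi
        have e2 := b _ hi _ hw
        have e3 := aT _ hw
        simp [D, T] at e1 e2 e3 ⊢; omega
      rcases iN.lt_or_eq with l | rfl
      · have n1 : (2, i + 1) ∉ K := fun h => by simpa using kk _ h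
        obtain ⟨w, w1, w2⟩ := c _ (mG _ l) n1
        have p1 : (0, i) ∈ K := by
          rcases kk w w1 with rfl | rfl | rfl
          · simp [D] at w2
          · exact w1
          · simp [D] at w2
        have n2 : (0, i + 1) ∉ K := fun h => b _ p1 _ h ((dq _ _ (by simp) (by simp)).2 (h2 i l).1)
        obtain ⟨w, w1, w2⟩ := c _ (.inl (hS2 _ l)) n2
        rcases kk w w1 with rfl | rfl | rfl
        · simp [D] at w2
        · exact (h2 i l).2 ((dq _ _ (by simp) (by simp)).1 w2)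
        · exact n2 w1
      · have n1 : (0, 0) ∉ K := fun h => by have := kk _ h; simp at this; omega
        obtain ⟨w, w1, w2⟩ := c _ (.inl (hS2 _ (by omega))) n1
        rcases kk w w1 with rfl | rfl | rfl
        · simp [D] at w2
        · exact h4 ((dq _ _ (by simp) (by simp)).1 w2)
        · simpa [T] using aT _ w1
    have k1 : ∀ u ∈ K, u.1 ≤ 1 := fun ⟨t, j⟩ hu => by
      have := aT _ hu
      simp only [T, Set.mem_setOf_eq] at this ⊢
      rcases this with h | h | ⟨rfl, -⟩ | ⟨rfl, rfl⟩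
      · omega
      · omega
      · exact absurd hu (nG _)
      · exact absurd hu nH
    refine ⟨K, ⟨fun u hu => (a hu).resolve_right fun h => by have := k1 u hu; have := h.2; omega,
      fun u hu v hv h => b u hu v hv ((dq _ _ (k1 u hu) (k1 v hv)).2 h), fun v hv hk => ?_⟩, ?_⟩
    · obtain ⟨w, w1, w2⟩ := c v (.inl hv) hk
      exact ⟨w, w1, (dq _ _ (hS1 v hv) (k1 w w1)).1 w2⟩
    · obtain ⟨⟨t, j⟩, w1, w2⟩ := c (3, 0) (.inr ⟨by simp [T], by simp⟩) nH
      have := k1 _ w1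
      simp [D] at w2 this
      obtain ⟨rfl, rfl⟩ : t = 0 ∧ j = 0 := by omega
      exact w1
  · intro H S hS
    have gk : ∀ i, (2, i) ∈ S → ((2, i + 1) ∈ S → (0, i) ∈ S ∧ (0, i + 1) ∉ S) → (i = N → (0, 0) ∉ S) →
        ∃ K, IsKernel (D N q) S K := fun i g1 g2 g3 => by
      obtain ⟨K, a, b, c⟩ := h1 {u ∈ S | u = (0, i) ∨ u = (0, i + 1)} (fun u hu => hS hu.1)
        (by rintro _ ⟨-, rfl | rfl⟩ <;> simp)
      refine ⟨insert (2, i) K, Set.insert_subset g1 fun u hu => (a hu).1, ?_, fun ⟨t, j⟩ hv hk => ?_⟩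
      · rintro u (rfl | hu) v (rfl | hv)
        · simp [D]
        · rcases (a hv).2 with rfl | rfl <;> simp [D]
        · rcases (a hu).2 with rfl | rfl <;> simp [D]
        · rw [dq _ _ (by rcases (a hu).2 with rfl | rfl <;> simp) (by rcases (a hv).2 with rfl | rfl <;> simp)]
          exact b u hu v hv
      · simp only [Set.mem_insert_iff, not_or] at hk
        by_cases e : (t, j) = (0, i) ∨ (t, j) = (0, i + 1)
        · obtain ⟨w, w1, w2⟩ := c _ ⟨hv, e⟩ hk.2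
          exact ⟨w, .inr w1, (dq _ _ (by rcases e with e | e <;> rw [e] <;> simp)
            (by rcases (a w1).2 with rfl | rfl <;> simp)).2 w2⟩
        by_cases e2 : (t, j) = (2, i + 1)
        · rw [e2] at hv ⊢
          refine ⟨(0, i), .inr ?_, by simp [D]; omega⟩
          by_contra n
          obtain ⟨w, w1, w2⟩ := c _ ⟨(g2 hv).1, .inl rfl⟩ n
          rcases (a w1).2 with rfl | rfl
          · exact n w1
          · exact (g2 hv).2 (a w1).1
        refine ⟨(2, i), .inl rfl, ?_⟩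
        have e3 : ¬(i = N ∧ t = 0 ∧ j = 0) := fun ⟨x, y, z⟩ => g3 x (by rwa [y, z] at hv)
        have e4 := hS hv
        have e5 := hk.1
        simp [D, T] at e e2 e3 e4 e5 ⊢; omega
    by_cases hH : (3, 0) ∈ S
    · by_cases g0 : (2, 0) ∈ S
      · by_cases gA : ∀ j ≤ N, (2, j) ∈ S
        · by_cases p0 : (0, 0) ∈ S
          · by_cases pA : ∀ j ≤ N, (0, j) ∈ S
            · obtain ⟨K, ⟨a, b, c⟩, d⟩ := H {u ∈ S | u.1 ≤ 1} (fun u hu => hS hu.1) (fun u hu => hu.2)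
                fun j hj => ⟨pA j hj, by simp⟩
              have pN : (0, N) ∈ K := by
                by_contra n
                obtain ⟨w, w1, w2⟩ := c _ ⟨pA N le_rfl, by simp⟩ n
                exact h5 w (hS (a w1).1) w2
              refine ⟨K, fun u hu => (a hu).1, fun u hu v hv h => b u hu v hv ((dq _ _ (a hu).2 (a hv).2).1 h),
                fun ⟨t, j⟩ hv hk => ?_⟩
              by_cases e : t ≤ 1
              · obtain ⟨w, w1, w2⟩ := c _ ⟨hv, e⟩ hk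
                exact ⟨w, w1, (dq _ _ e (a w1).2).2 w2⟩
              have e4 := hS hv
              by_cases e2 : t = 2 ∧ j = 0
              · exact ⟨_, pN, by simp [D]; omega⟩
              · exact ⟨_, d, by simp [D, T] at e4 ⊢; omega⟩
            · obtain ⟨i, i1, i2, i3⟩ := exists_step p0 pA
              exact gk i (gA i i1.le) (fun _ => ⟨i2, i3⟩) (by omega)
          · exact gk N (gA N le_rfl) (fun h => by simpa [T] using hS h) fun _ => p0
        · obtain ⟨i, i1, i2, i3⟩ := exists_step g0 gA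
          exact gk i i2 (fun h => absurd h i3) (by omega)
      · refine ⟨{(3, 0)}, by simpa using hH, by simp [D], fun ⟨t, j⟩ hv hk => ⟨_, rfl, ?_⟩⟩
        have e3 : ¬(t = 2 ∧ j = 0) := fun ⟨y, z⟩ => g0 (by rwa [y, z] at hv)
        have e4 := hS hv
        simp [D, T] at e3 e4 hk ⊢; omega
    · obtain ⟨K, a, b, c⟩ := h1 {u ∈ S | u.1 ≤ 1} (fun u hu => hS hu.1) fun u hu => hu.2
      have kq : ∀ u ∈ K, ∀ v ∈ K, ¬D N q u v := fun u hu v hv h => b u hu v hv ((dq _ _ (a hu).2 (a hv).2).1 h)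
      have ab : ∀ v ∈ S, v ∉ K → (∃ w ∈ K, D N q v w) ∨ v.1 = 2 := fun ⟨t, j⟩ hv hk => by
        by_cases e : t ≤ 1
        · obtain ⟨w, w1, w2⟩ := c _ ⟨hv, e⟩ hk
          exact .inl ⟨w, w1, (dq _ _ e (a w1).2).2 w2⟩
        have e3 : ¬(t = 3 ∧ j = 0) := fun ⟨y, z⟩ => hH (by rwa [y, z] at hv)
        have e4 := hS hv
        right
        simp [T] at e3 e4 ⊢; omega
      by_cases u0 : ∃ i, (2, i) ∈ S ∧ ∀ w ∈ K, ¬D N q (2, i) w
      · classical
        have hb : ∀ i, (2, i) ∈ S → i ≤ N := fun i h => by simpa [T] using hS h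
        obtain ⟨i0, hi0⟩ := u0
        have m1 := Nat.findGreatest_spec (P := fun i => (2, i) ∈ S ∧ ∀ w ∈ K, ¬D N q (2, i) w) (hb _ hi0.1) hi0
        have m2 := fun j (h : (2, j) ∈ S ∧ ∀ w ∈ K, ¬D N q (2, j) w) =>
          Nat.le_findGreatest (P := fun i => (2, i) ∈ S ∧ ∀ w ∈ K, ¬D N q (2, i) w) (hb _ h.1) h
        generalize Nat.findGreatest (fun i => (2, i) ∈ S ∧ ∀ w ∈ K, ¬D N q (2, i) w) N = i at m1 m2
        refine ⟨insert (2, i) K, Set.insert_subset m1.1 fun u hu => (a hu).1, ?_, fun v hv hk => ?_⟩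
        · rintro u (rfl | hu) v (rfl | hv)
          · simp [D]
          · exact m1.2 v hv
          · obtain ⟨t, j⟩ := u
            have e1 := m1.2 _ hu
            have e2 := (a hu).2
            simp [D] at e1 e2 ⊢; omega
          · exact kq u hu v hv
        · simp only [Set.mem_insert_iff, not_or] at hk
          by_cases e : ∃ w ∈ K, D N q v w
          · obtain ⟨w, w1, w2⟩ := e; exact ⟨w, .inr w1, w2⟩
          obtain ⟨t, j⟩ := v
          obtain rfl : t = 2 := (ab _ hv hk.2).resolve_left e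
          have := m2 j ⟨hv, by simpa using e⟩
          have e5 := hk.1
          exact ⟨_, .inl rfl, by simp [D] at e5 ⊢; omega⟩
      · refine ⟨K, fun u hu => (a hu).1, kq, fun ⟨t, j⟩ hv hk => ?_⟩
        rcases ab _ hv hk with h | rfl
        · exact h
        · by_contra! n
          exact u0 ⟨j, hv, n⟩

def li (m : ℕ) (l : ℕ × Bool) : ℕ := 2 * (1 + m + 2 * l.1 + l.2.toNat)

def dC : Cl3 ℕ := ((0, false), (0, false), (0, false))

def nn (a : List Unit × List (Cl3 ℕ)) : ℕ := 2 * (1 + a.2.length + 2 * (a.1.length + 3 * a.2.length))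

def qq (a : List Unit × List (Cl3 ℕ)) (u v : W) : Prop :=
  (u.1 = 0 ∧ v.1 = 0 ∧ (v.2 = u.2 + 1 ∨ (u.2 % 2 = 1 ∧ v.2 = nn a) ∨
    (u.2 = 0 ∧ v.2 % 2 = 0 ∧ 2 ≤ v.2 ∧ v.2 ≤ 2 * a.2.length) ∨
    (∃ c < a.2.length, u.2 = 2 * (1 + c) ∧ (v.2 = li a.2.length (a.2.getD c dC).1 ∨
      v.2 = li a.2.length (a.2.getD c dC).2.1 ∨ v.2 = li a.2.length (a.2.getD c dC).2.2)) ∨
    ∃ x < a.1.length + 3 * a.2.length, a.1.length ≤ x ∧
      ((u.2 = li a.2.length (x, false) ∧ v.2 = li a.2.length (x, true)) ∨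
        (u.2 = li a.2.length (x, true) ∧ v.2 = li a.2.length (x, false))))) ∨
  (u.1 = 0 ∧ v.1 = 1 ∧ u.2 = 2 * (1 + a.2.length + v.2)) ∨ (u.1 = 1 ∧ v.1 = 1 ∧ u.2 / 2 = v.2 / 2 ∧ u.2 ≠ v.2)

instance (a u v) : Decidable (qq a u v) := by unfold qq; infer_instance
instance (a u v) : Decidable (D (nn a) (qq a) u v) := by unfold D; infer_instance

theorem q_kp (a) (S) (hS : S ⊆ T (nn a) (2 * a.1.length)) (h : ∀ u ∈ S, u.1 ≤ 1) : ∃ K, IsKernel (qq a) S K := by
  refine dag _ S (fun u => if u.1 = 0 then u.2 else nn a + 1 + u.2) (2 * nn a + 1 + 2 * a.1.length)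
    (fun ⟨t, j⟩ hu => ?_) fun ⟨t, j⟩ hu ⟨s, i⟩ hv e => ?_
  · have := hS hu
    simp only [T, Set.mem_setOf_eq] at this ⊢
    split <;> omega
  · have e1 := hS hu
    have e2 := hS hv
    simp only [T, Set.mem_setOf_eq] at e1 e2
    simp only [qq] at e
    rcases e with ⟨rfl, rfl, e | e | e | ⟨c, c1, c2, c3⟩ | ⟨x, x1, x2, e | e⟩⟩ | ⟨rfl, rfl, e⟩ | ⟨rfl, rfl, e⟩
    · left; simp; omega
    · left; simp [nn] at *; omega
    · left; simp; omega
    · left; simp only [li] at c3; simp; omega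
    · left; simp [li] at e ⊢; omega
    · right
      exact ⟨.inl ⟨rfl, rfl, .inr (.inr (.inr (.inr ⟨x, x1, x2, .inl ⟨e.2, e.1⟩⟩)))⟩, by simp [li] at e ⊢; omega⟩
    · left; simp; omega
    · rcases lt_or_gt_of_ne e.2 with l | l
      · left; simpa using l
      · right; exact ⟨.inr (.inr ⟨rfl, rfl, e.1.symm, e.2.symm⟩), by simpa using l⟩

theorem sat (n : List Unit) (φ : List (Cl3 ℕ)) (hv : ∀ C ∈ φ, ∀ x ∈ C.vars, x < n.length + 3 * φ.length) :
    Q3 n.length φ ↔ ∀ S ⊆ T (nn (n, φ)) (2 * n.length), (∀ u ∈ S, u.1 ≤ 1) → (∀ j ≤ nn (n, φ), (0, j) ∈ S) →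
      ∃ K, IsKernel (qq (n, φ)) S K ∧ (0, 0) ∈ K := by
  have hc : ∀ c < φ.length, φ.getD c dC ∈ φ := fun c h => by simp [List.getD_eq_getElem?_getD, h]
  have hb : ∀ c < φ.length, (φ.getD c dC).1.1 < n.length + 3 * φ.length ∧
      (φ.getD c dC).2.1.1 < n.length + 3 * φ.length ∧ (φ.getD c dC).2.2.1 < n.length + 3 * φ.length := fun c h => by
    simpa only [Cl3.vars, List.forall_mem_cons, List.not_mem_nil, IsEmpty.forall_iff, implies_true, and_true]
      using hv _ (hc c h)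
  have tb : ∀ b : Bool, b.toNat ≤ 1 := Bool.toNat_le
  constructor
  · intro H S hS hS1 hS2
    classical
    obtain ⟨v, v1, v2⟩ := H fun i => decide ((1, 2 * i) ∈ S)
    let KK : ℕ → Prop := fun i => (1, i) ∈ S ∧ (i % 2 = 1 → (1, i - 1) ∉ S)
    let K : Set W := {u | (u.1 = 0 ∧ (u.2 = 0 ∨ u.2 = nn (n, φ) ∨ ∃ x < n.length + 3 * φ.length, ∃ b : Bool,
      u.2 = li φ.length (x, b) ∧ (x < n.length → ¬KK (2 * x + b.toNat)) ∧ (n.length ≤ x → v x = b))) ∨
      (u.1 = 1 ∧ KK u.2)}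
    refine ⟨K, ⟨?_, ?_, fun ⟨t, j⟩ hu hk => ?_⟩, .inl ⟨rfl, .inl rfl⟩⟩
    · rintro ⟨t, j⟩ (⟨rfl, rfl | rfl | ⟨x, x1, b, rfl, -⟩⟩ | ⟨rfl, h⟩)
      · exact hS2 _ (by simp)
      · exact hS2 _ le_rfl
      · exact hS2 _ (by have := tb b; simp [li, nn]; omega)
      · exact h.1
    · rintro ⟨t, j⟩ hu ⟨s, i⟩ hw e
      simp only [qq] at e
      simp only [K, Set.mem_setOf_eq] at hu hw
      rcases e with ⟨rfl, rfl, e⟩ | ⟨rfl, rfl, e⟩ | ⟨rfl, rfl, e⟩
      · simp only [true_and, zero_ne_one, false_and, or_false, li, nn] at hu hw e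
        have a1 : j % 2 = 0 ∧ (j = 0 ∨ 2 * (1 + φ.length) ≤ j) := by
          rcases hu with h | h | ⟨_, _, _, h, -⟩ <;> clear hw e <;> omega
        have a2 : i % 2 = 0 ∧ (i = 0 ∨ 2 * (1 + φ.length) ≤ i) := by
          rcases hw with h | h | ⟨_, _, _, h, -⟩ <;> clear hu e <;> omega
        rcases e with e | e | e | ⟨c, c1, c2, -⟩ | ⟨x, x1, x2, e⟩
        · clear hu hw; omega
        · clear hu hw; omega
        · clear hu hw; omega
        · clear hu hw; omega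
        · obtain ⟨y, y1, b, y2, -, y3⟩ := (hu.resolve_left (by omega)).resolve_left (by simp at e; omega)
          obtain ⟨z, z1, c, z2, -, z3⟩ := (hw.resolve_left (by omega)).resolve_left (by simp at e; omega)
          have := tb b
          have := tb c
          simp at e
          obtain rfl : y = x := by omega
          obtain rfl : z = y := by omega
          rw [← y3 x2] at y2; rw [← z3 x2] at z2
          omega
      · simp only [true_and, zero_ne_one, one_ne_zero, false_and, or_false, false_or, li, nn] at hu hw e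
        have i1 : i < 2 * n.length := by simpa [T] using hS hw.1
        obtain ⟨y, y1, b, y2, y3, -⟩ := (hu.resolve_left (by omega)).resolve_left (by omega)
        have := tb b
        exact y3 (by omega) (by rwa [show 2 * y + b.toNat = i by omega])
      · simp only [true_and, one_ne_zero, false_and, false_or] at hu hw
        rcases Nat.mod_two_eq_zero_or_one j with l | l
        · exact hw.2 (by omega) (by rw [show i - 1 = j by omega]; exact hu.1)
        · exact hu.2 l (by rw [show j - 1 = i by omega]; exact hw.1)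
    · have e1 := hS hu
      have e2 := hS1 _ hu
      simp only [T, Set.mem_setOf_eq] at e1 e2
      simp only [K, Set.mem_setOf_eq] at hk
      rcases e1 with ⟨rfl, e1⟩ | ⟨rfl, e1⟩ | e1 | e1
      · simp only [true_and, zero_ne_one, false_and, or_false, not_or] at hk
        obtain ⟨k1, k2, k3⟩ := hk
        rcases Nat.mod_two_eq_zero_or_one j with l | l
        · by_cases l2 : j ≤ 2 * φ.length
          · obtain ⟨c, rfl⟩ : ∃ c, j = 2 * (1 + c) := ⟨j / 2 - 1, by omega⟩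
            have c1 : c < φ.length := by omega
            have key : ∀ l : ℕ × Bool, l.1 < n.length + 3 * φ.length → v l.1 = l.2 → (0, li φ.length l) ∈ K :=
              fun ⟨x, b⟩ l1 l2 => .inl ⟨rfl, .inr (.inr ⟨x, l1, b, rfl, fun x1 hk => by
                have := v1 x x1
                cases b <;> simp_all [KK], fun _ => l2⟩)⟩
            rcases v2 _ (hc c c1) with h | h | h
            · exact ⟨_, key _ (hb c c1).1 h, .inl ⟨rfl, rfl, .inr (.inr (.inr (.inl ⟨c, c1, rfl, .inl rfl⟩)))⟩⟩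
            · exact ⟨_, key _ (hb c c1).2.1 h,
                .inl ⟨rfl, rfl, .inr (.inr (.inr (.inl ⟨c, c1, rfl, .inr (.inl rfl)⟩)))⟩⟩
            · exact ⟨_, key _ (hb c c1).2.2 h,
                .inl ⟨rfl, rfl, .inr (.inr (.inr (.inl ⟨c, c1, rfl, .inr (.inr rfl)⟩)))⟩⟩
          · obtain ⟨x, b, rfl⟩ : ∃ x b, j = li φ.length (x, b) :=
              ⟨(j / 2 - 1 - φ.length) / 2, decide ((j / 2 - 1 - φ.length) % 2 = 1), by
                by_cases h : (j / 2 - 1 - φ.length) % 2 = 1 <;> simp [li, h] <;> omega⟩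
            have x1 : x < n.length + 3 * φ.length := by simp [li, nn] at e1 k2; omega
            by_cases x2 : x < n.length
            · have : KK (2 * x + b.toNat) := by
                by_contra h
                exact k3 ⟨x, x1, b, rfl, fun _ => h, by omega⟩
              exact ⟨(1, 2 * x + b.toNat), .inr ⟨rfl, this⟩, .inr (.inl ⟨rfl, rfl, by simp [li]; omega⟩)⟩
            · have : v x = !b := by
                by_contra h
                exact k3 ⟨x, x1, b, rfl, by omega, fun _ => by simpa using h⟩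
              exact ⟨(0, li φ.length (x, !b)), .inl ⟨rfl, .inr (.inr ⟨x, x1, _, rfl, by omega, fun _ => this⟩)⟩,
                .inl ⟨rfl, rfl, .inr (.inr (.inr (.inr ⟨x, x1, not_lt.1 x2, by cases b <;> simp⟩)))⟩⟩
        · exact ⟨(0, nn (n, φ)), .inl ⟨rfl, .inr (.inl rfl)⟩, .inl ⟨rfl, rfl, .inr (.inl ⟨l, rfl⟩)⟩⟩
      · simp only [true_and, one_ne_zero, false_and, false_or, KK, hu, Classical.not_imp, not_not] at hk
        exact ⟨(1, j - 1), .inr ⟨rfl, hk.2, by simp; omega⟩, .inr (.inr ⟨rfl, rfl, by simp; omega⟩)⟩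
      · omega
      · omega
  · intro H x
    obtain ⟨K, ⟨a, b, c⟩, d⟩ := H {u | (u.1 = 0 ∧ u.2 ≤ nn (n, φ)) ∨
        (u.1 = 1 ∧ ∃ i < n.length, u.2 = 2 * i + (!x i).toNat)}
      (by
        rintro ⟨t, j⟩ (h | ⟨h, i, h1, h2⟩)
        · exact .inl h
        · exact .inr (.inl ⟨h, by have := tb (!x i); omega⟩))
      (by rintro ⟨t, j⟩ (h | h) <;> omega) fun j hj => .inl ⟨rfl, hj⟩
    have pN : (0, nn (n, φ)) ∈ K := by
      by_contra h
      obtain ⟨⟨s, i⟩, w1, w2⟩ := c _ (.inl ⟨rfl, le_rfl⟩) h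
      have := a w1
      simp [qq, nn, li] at w2 this
      rcases this with ⟨rfl, h⟩ | ⟨rfl, y, y1, y2⟩
      · simp at w2; omega
      · have := tb (!x y); simp at w2; omega
    have pk : ∀ i < n.length, (1, 2 * i + (!x i).toNat) ∈ K := fun i hi => by
      by_contra h
      obtain ⟨⟨s, j⟩, w1, w2⟩ := c _ (.inr ⟨rfl, i, hi, rfl⟩) h
      have := a w1
      simp [qq] at w2 this
      obtain ⟨rfl, e1, e2⟩ := w2
      obtain ⟨y, y1, rfl⟩ := by simpa using this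
      have := tb (!x y)
      have := tb (!x i)
      obtain rfl : y = i := by omega
      exact e2 rfl
    classical
    refine ⟨fun i => if i < n.length then x i else decide ((0, li φ.length (i, true)) ∈ K), fun i hi => by simp [hi],
      fun C hC => ?_⟩
    obtain ⟨j, j1, rfl⟩ := List.getElem_of_mem hC
    have e : φ[j] = φ.getD j dC := by simp [List.getD_eq_getElem?_getD, j1]
    rw [e]
    have n1 : (0, 2 * (1 + j)) ∉ K := fun h =>
      b _ d _ h (.inl ⟨rfl, rfl, .inr (.inr (.inl ⟨rfl, by simp, by simp, by simp; omega⟩))⟩)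
    have key : ∀ l : ℕ × Bool, l.1 < n.length + 3 * φ.length → (0, li φ.length l) ∈ K →
        (if l.1 < n.length then x l.1 else decide ((0, li φ.length (l.1, true)) ∈ K)) = l.2 := fun ⟨y, o⟩ l1 l2 => by
      split
      · by_contra h
        have : (!x y) = o := by revert h; cases x y <;> cases o <;> simp
        exact b _ l2 _ (pk y ‹_›) (.inr (.inl ⟨rfl, rfl, by simp [li, this]; omega⟩))
      · cases o
        · simpa using fun h => b _ l2 _ h
            (.inl ⟨rfl, rfl, .inr (.inr (.inr (.inr ⟨y, l1, not_lt.1 ‹_›, .inl ⟨rfl, rfl⟩⟩)))⟩)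
        · simpa using l2
    obtain ⟨⟨s, i⟩, w1, w2⟩ := c _ (.inl ⟨rfl, by simp [nn]; omega⟩) n1
    simp only [qq] at w2
    rcases w2 with ⟨-, rfl, rfl | w2 | w2 | ⟨k, k1, k2, w2⟩ | ⟨y, -, -, w2⟩⟩ | ⟨-, -, w2⟩ | w2
    · exact absurd (.inl ⟨rfl, rfl, .inr (.inl ⟨by simp, rfl⟩)⟩) (b _ w1 _ pN)
    · omega
    · omega
    · obtain rfl : k = j := by omega
      rcases w2 with rfl | rfl | rfl
      · exact .inl (key _ (hb k j1).1 w1)
      · exact .inr (.inl (key _ (hb k j1).2.1 w1))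
      · exact .inr (.inr (key _ (hb k j1).2.2 w1))
    · simp only [li] at w2; omega
    · omega
    · omega

def vs (a : List Unit × List (Cl3 ℕ)) : List W :=
  (List.range (nn a + 1)).map (fun j => (0, j)) ++ (List.range (2 * a.1.length)).map (fun j => (1, j)) ++
    (List.range (nn a + 1)).map (fun j => (2, j)) ++ [(3, 0)]

theorem mem_vs (a u) : u ∈ vs a ↔ u ∈ T (nn a) (2 * a.1.length) := by
  obtain ⟨t, j⟩ := u
  simp only [vs, T, List.mem_append, List.mem_map, List.mem_range, Prod.mk.injEq, List.mem_singleton,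
    Set.mem_setOf_eq, or_assoc]
  refine or_congr ?_ (or_congr ?_ (or_congr ?_ Iff.rfl)) <;>
    exact ⟨by rintro ⟨_, h, rfl, rfl⟩; omega, fun h => ⟨j, by omega, h.1.symm, rfl⟩⟩

def gr (a : List Unit × List (Cl3 ℕ)) : Gr := mkGr (vs a) ((vs a ×ˢ vs a).filter fun e => D (nn a) (qq a) e.1 e.2)

theorem gr_arc (a u v) : (gr a).arc u v ↔ D (nn a) (qq a) (mkGrEquiv _ _ u).1 (mkGrEquiv _ _ v).1 := by
  refine (mkGr_arc _ _ u v).trans ?_
  simp only [List.mem_filter, decide_eq_true_eq, and_iff_right_iff_imp]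
  exact fun _ => List.pair_mem_product.2 ⟨(mkGrEquiv _ _ u).2, (mkGrEquiv _ _ v).2⟩

theorem gr_loop (a v) : ¬(gr a).arc v v := by
  rw [gr_arc]
  generalize hu : (mkGrEquiv _ _ v).1 = u
  have : u ∈ T (nn a) (2 * a.1.length) := (mem_vs _ _).1 (hu ▸ (mkGrEquiv _ _ v).2)
  obtain ⟨t, j⟩ := u
  rintro (⟨-, -, h⟩ | h)
  · simp only [qq, li, nn, Bool.toNat_true, Bool.toNat_false] at h
    rcases h with ⟨-, -, h | h | h | ⟨c, c1, c2, h⟩ | ⟨x, -, -, h⟩⟩ | h | h <;> omega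
  · simp at h; omega

set_option synthInstance.maxSize 2000 in
theorem hard : Pi2Hard KP := by
  refine Pi2Hard.of_q3 (fun a => ⟨gr a, gr_loop a⟩) (PT.subtype (by unfold gr vs D qq nn li; fun_prop) _) fun n φ hv => ?_
  rw [sat n φ hv, ← guard _ _ _ (by simp [nn]; omega) (q_kp (n, φ))]
  · refine ((transfer _ _ (fun i => (mkGrEquiv _ _ i).1) (fun i j e => (mkGrEquiv _ _).injective (Subtype.ext e))
      (gr_arc (n, φ))).trans ?_).symm
    have : Set.range (fun i => (mkGrEquiv (vs (n, φ)) ((vs (n, φ) ×ˢ vs (n, φ)).filter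
        fun e => D (nn (n, φ)) (qq (n, φ)) e.1 e.2) i).1) = T (nn (n, φ)) (2 * n.length) := by
      ext u
      rw [← mem_vs (n, φ)]
      exact ⟨by rintro ⟨i, rfl⟩; exact (mkGrEquiv _ _ i).2, fun h => ⟨(mkGrEquiv _ _).symm ⟨u, h⟩, by simp⟩⟩
    rw [this]
  · intro j hj
    refine ⟨.inl ⟨rfl, rfl, .inl rfl⟩, fun h => ?_⟩
    simp only [qq, li, nn] at h hj
    rcases h with ⟨-, -, h | h | h | ⟨c, c1, c2, h⟩ | ⟨x, -, -, h⟩⟩ | h | h <;> omega
  · simp [qq, li, nn]; omega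
  · rintro ⟨t, j⟩ e h
    simp only [qq, li, nn, T, Set.mem_setOf_eq, Bool.toNat_true, Bool.toNat_false] at h e
    rcases h with ⟨-, h0, h | h | h | ⟨c, c1, c2, h⟩ | ⟨x, h0, -, h⟩⟩ | h | h <;> omega

theorem mem_gr : InPi2 fun a : Gr => ∀ S, ∃ K, IsKernel a.arc S K := by
  refine InPi2.of_cert (γ := List ℕ) (δ := List ℕ)
    (fun a c d => (∀ u ∈ d, u ∈ c) ∧ (∀ u ∈ d, ∀ v ∈ d, u < a.n → v < a.n → (u, v) ∉ a.2) ∧
      ∀ v ∈ c, v < a.n → v ∉ d → ∃ w ∈ d, w < a.n ∧ (v, w) ∈ a.2)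
    (i := fun _ _ _ => inferInstance) (fun a => size (List.range a.n)) (by fun_prop) (by fun_prop) ?_ ?_
  · intro a H S
    classical
    obtain ⟨d, h1, h2, h3⟩ := H ((List.range a.n).filter fun i => ∃ h : i < a.n, ⟨i, h⟩ ∈ S)
      (size_sublist List.filter_sublist)
    refine ⟨{i | i.1 ∈ d}, fun u hu => by simpa using h1 _ hu, fun u hu v hv => h2 _ hu _ hv u.2 v.2,
      fun v hv hk => ?_⟩
    obtain ⟨w, w1, w2, w3⟩ := h3 v (by simpa using hv) v.2 hk
    exact ⟨⟨w, w2⟩, w1, w3⟩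
  · intro a H c
    classical
    obtain ⟨K, h1, h2, h3⟩ := H {i | i.1 ∈ c}
    refine ⟨(List.range a.n).filter fun i => ∃ h : i < a.n, ⟨i, h⟩ ∈ K, size_sublist List.filter_sublist,
      fun u hu => ?_, fun u hu v hv a b => ?_, fun v hv a hk => ?_⟩
    · simp at hu
      obtain ⟨h, e⟩ := hu
      exact h1 e
    · exact h2 ⟨u, a⟩ (by simpa [a] using hu) ⟨v, b⟩ (by simpa [b] using hv)
    · obtain ⟨w, w1, w2⟩ := h3 ⟨v, a⟩ hv (by simpa [a] using hk)
      exact ⟨w, by simpa using w1, w.2, w2⟩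

end Pool.Agent.H.MP_8f64b1_lc
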