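import Pool.Agent.Lib.helper25.CX2Defs
import Pool.Agent.Lib.lead.CXGraph

namespace Pool.Agent.H.MP_8f64b1_lc

open Pool.Agent.Lib.CX

/-- `K` is a kernel of the subdigraph induced on `S` -/
def IsKernel {V : Type} (r : V → V → Prop) (S K : Set V) : Prop :=
  K ⊆ S ∧ (∀ u ∈ K, ∀ v ∈ K, ¬r u v) ∧ ∀ v ∈ S, v ∉ K → ∃ w ∈ K, r v w

/-- the input digraph (without loops) is kernel-perfect -/
def KP (a : {a : Gr // ∀ v, ¬a.arc v v}) : Prop := ∀ S, ∃ K, IsKernel a.1.arc S K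

end Pool.Agent.H.MP_8f64b1_lc
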